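import Pool.Agent.KS6_81.EC.Rk
import Pool.Agent.KS6_81.EC.Fin

/-!
# The gap between the Brown–Voiculescu entropy and the coloured entropies can be infinite

There are a separable unital C*-algebra `A` of decomposition rank and nuclear dimension zero (an AF
algebra) and a self-adjoint element `h` of `A` such that for EVERY real number `t ≠ 0` the inner
automorphism `α t = Ad exp(i t h)` has Brown–Voiculescu entropy zero, while both coloured entropies
`ht_nuc` and `ht_dr` are infinite. As `α t` tends to the identity in norm for `t → 0`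
(`‖α t a - a‖ ≤ 2 |t| ‖a‖`), the coloured entropies are infinite arbitrarily close to the identity.

The algebra is that of the starting example (an automorphism with `ht = 0` and
`ht_nuc ≥ (log 2) / 4`); it is an algebra of sections, over all levels `p`, of matrices indexed by
a base point and the `2 ^ p` dyadic intervals of length `2 ^ (-p)`, at points `x` with one real
coordinate `x i` in every interval. There the unitary is `diag(1, e^{2πi x_j})`. Here
`h = diag(0, g(x_j))`, where `g(x)` is the number whose binary digits are every second binary digit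
of `x`. The frequency `g(x_j)` forgets half of the digits, so that `n` iterates of the `4 ^ m`
partial isometries `v_l` (`l` a cell of level `2 m`) see `4 ^ m` times about `n / 2 ^ m` different
frequencies, and the rate of growth is at least a constant times `2 ^ m |t|`. On the other hand
`g(x)` is still known up to `2 ^ (-D)` if `2 D` binary digits of `x` are known, so that the growth
of the ranks of arbitrary completely positive approximations stays polynomial.
-/

set_option autoImplicit false
set_option linter.unusedVariables false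

open scoped Matrix.Norms.L2Operator ENNReal Matrix

noncomputable section

namespace Pool.Agent.Results.MP_ec8bff_an.InfiniteGap

open Pool.Agent.KS6_81.EC

/-- the self-adjoint element -/
def HA : AA := secA _ regF_gf - pA

theorem ev_HA (p : ℕ) (x : Pt p) :
    ev p x HA = Matrix.diagonal fun i => i.elim 0 fun i => ((gf (x.c i) : ℝ) : ℂ) := by
  rw [HA, map_sub, ev_secA, ev_pA, dg]
  ext i j
  rw [Matrix.sub_apply]
  rcases i with _ | i <;> rcases j with _ | j
  · simp [pm]
  · simp [pm]
  · simp [pm]
  · simp only [pm, Matrix.single_apply, reduceCtorEq, false_and, if_false, sub_zero]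
    rw [Matrix.diagonal_apply, Matrix.diagonal_apply]
    rfl

theorem star_HA : star HA = HA := AA.ext fun p x => by
  rw [map_star, ev_HA, Matrix.star_eq_conjTranspose, Matrix.diagonal_conjTranspose]
  congr 1
  funext i
  rcases i with _ | i
  · simp
  · simp

theorem norm_HA_le : ‖HA‖ ≤ 1 := by
  refine AA.norm_le zero_le_one fun p x => ?_
  rw [ev_HA, Matrix.l2_opNorm_diagonal, pi_norm_le_iff_of_nonneg zero_le_one]
  intro i
  rcases i with _ | i
  · simp
  · change ‖((gf (x.c i) : ℝ) : ℂ)‖ ≤ 1
    rw [Complex.norm_real, Real.norm_eq_abs, abs_of_nonneg (gf_nonneg _)]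
    exact gf_le_one _

theorem exp_HA (t : ℝ) : NormedSpace.exp ((Complex.I * t) • HA) = WA (t / (2 * Real.pi)) := by
  refine AA.ext fun p x => ?_
  have hc : Continuous (ev p x) :=
    ((ev p x : AA →ₐ[ℂ] Mt p).toLinearMap.mkContinuous 1 (fun a => by
      rw [one_mul]; exact a.norm_ev p x)).continuous
  have he : ev p x (NormedSpace.exp ((Complex.I * t) • HA))
      = NormedSpace.exp (ev p x ((Complex.I * t) • HA)) :=
    NormedSpace.map_exp_of_mem_ball (𝕂 := ℂ) (ev p x) hc _
      ((NormedSpace.expSeries_radius_eq_top ℂ AA).symm ▸ edist_lt_top _ _)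
  rw [he, map_smul, ev_HA, ← Matrix.diagonal_smul, Matrix.exp_diagonal, ev_WA, wg, dg]
  congr 1
  funext i
  rw [Pi.coe_exp]
  rcases i with _ | i
  · simp
  · change NormedSpace.exp ((Complex.I * t) * ((gf (x.c i) : ℝ) : ℂ)) = ex _
    rw [← Complex.exp_eq_exp_ℂ, ex]
    congr 1
    have hpi : (Real.pi : ℂ) ≠ 0 := by exact_mod_cast Real.pi_ne_zero
    push_cast
    field_simp

theorem norm_WA_sub_one_le (t : ℝ) : ‖WA (t / (2 * Real.pi)) - 1‖ ≤ |t| := by
  refine AA.norm_le (abs_nonneg _) fun p x => ?_
  rw [map_sub, map_one, ev_WA, wg, ← dg_one]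
  refine norm_dg_sub_le _ _ (abs_nonneg _) fun i => ?_
  change ‖ex _ - 1‖ ≤ |t|
  rw [← ex_zero]
  refine (ex_sub_le _ _).trans ?_
  rw [sub_zero, abs_mul, abs_div, abs_of_nonneg (gf_nonneg _),
    abs_of_pos (show (0 : ℝ) < 2 * Real.pi by positivity)]
  have h1 := gf_le_one (x.c i)
  have h2 := gf_nonneg (x.c i)
  have h3 := abs_nonneg t
  calc 2 * Real.pi * (|t| / (2 * Real.pi) * gf (x.c i)) = |t| * gf (x.c i) := by field_simp
    _ ≤ |t| * 1 := by gcongr
    _ = |t| := mul_one _

theorem norm_WA_le (t : ℝ) : ‖WA t‖ ≤ 1 := AA.norm_le zero_le_one fun p x => norm_wg_le t p x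

theorem alW_sub (t : ℝ) (a : AA) : ‖alW (t / (2 * Real.pi)) a - a‖ ≤ 2 * |t| * ‖a‖ := by
  set w := WA (t / (2 * Real.pi)) with hw
  have h1 : alW (t / (2 * Real.pi)) a - a = (w - 1) * a * star w + a * star (w - 1) := by
    rw [alW_apply, ← hw, star_sub, star_one]
    noncomm_ring
  have h2 : ‖w - 1‖ ≤ |t| := norm_WA_sub_one_le t
  have h3 : ‖w‖ ≤ 1 := norm_WA_le _
  rw [h1]
  refine (norm_add_le _ _).trans ?_
  have e1 : ‖(w - 1) * a * star w‖ ≤ |t| * ‖a‖ * 1 := by
    refine (norm_mul_le _ _).trans ?_
    rw [norm_star]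
    gcongr
    exact (norm_mul_le _ _).trans (by gcongr)
  have e2 : ‖a * star (w - 1)‖ ≤ ‖a‖ * |t| := by
    refine (norm_mul_le _ _).trans ?_
    rw [norm_star]
    gcongr
  linarith

/-- **Infinite gap.** There are a separable unital C*-algebra `A` of decomposition rank and nuclear
dimension zero, a self-adjoint `h` in `A` with `‖h‖ ≤ 1`, and, for every real `t`, the inner
automorphism `α t = Ad exp(i t h)`, such that `ht (α t) = 0` for all `t`, while
`ht_nuc (α t) = ht_dr (α t) = ∞` for all `t ≠ 0`; and `‖α t a - a‖ ≤ 2 |t| ‖a‖` for all `a`. -/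
theorem result : ∃ (A : Type) (_ : CStarAlgebra A) (h : A) (α : ℝ → (A →⋆ₙₐ[ℂ] A)),
    TopologicalSpace.SeparableSpace A ∧ decRank A = 0 ∧ nucDim A = 0 ∧
    star h = h ∧ ‖h‖ ≤ 1 ∧
    (∀ (t : ℝ) (a : A), α t a = NormedSpace.exp ((Complex.I * t) • h) * a *
      NormedSpace.exp (-((Complex.I * t) • h))) ∧
    (∀ (t : ℝ) (a : A), ‖α t a - a‖ ≤ 2 * |t| * ‖a‖) ∧
    (∀ t : ℝ, ht (α t) = 0) ∧
    ∀ t : ℝ, t ≠ 0 → htNuc (α t) = ⊤ ∧ htDr (α t) = ⊤ := by
  refine ⟨AA, instAA, HA, fun t => alW (t / (2 * Real.pi)), inferInstance, decRank_AA, nucDim_AA,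
    star_HA, norm_HA_le, fun t a => ?_, alW_sub, fun t => ht_alW _, fun t ht => ?_⟩
  · beta_reduce
    have h1 : -((Complex.I * t) • HA) = (Complex.I * ((-t : ℝ) : ℂ)) • HA := by
      rw [← neg_smul]
      congr 1
      push_cast
      ring
    rw [h1, exp_HA, exp_HA, alW_apply, WA_star]
    congr 2
    ring
  · have h2 : t / (2 * Real.pi) ≠ 0 := div_ne_zero ht (by positivity)
    exact ⟨htNuc_alW h2, htDr_alW h2⟩

end Pool.Agent.Results.MP_ec8bff_an.InfiniteGap
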